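import Pool.Agent.Lib.MP_100fe7_nt.TMain

/-!
Closed formula for the Deligne periods `c^+(N)`, `c^-(N)` of every motive `N = ρ(M_1, …, M_t)`
obtained from motives `M_i` by an algebraic representation `ρ` of `GL(M_1) × … × GL(M_t)`, in terms
of `c^+(M_i)`, `c^-(M_i)` (of `δ(M_i)` if these are not defined) and the determinants of
`F_∞ : M_i^{w-a, a} → M_i^{a, w-a}`, `2a < w`.
-/

open Pool.Agent.MP100fe7T TensorProduct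

theorem Pool.Agent.Results.MP_100fe7_nt.SeveralMotives.result
    (E : Type) [Field E] [NumberField E] (ι : Type) [Fintype ι] [DecidableEq ι]
    (σ : ι → Shape) (w : ι → ℤ) (M : ∀ i, Datum (E ⊗[ℚ] ℂ) (σ i) (w i))
    (κ : Type) [Fintype κ] [DecidableEq κ] (ρ : Rep E σ κ) (ε : ℤ) (hε : ε = 1 ∨ ε = -1) :
    (ρ.NoMiddle M → ρ.IsStep M ε ((ρ.motWeight w + 1) / 2)) ∧
    (∀ i, (σ i).m = 0 ∨ (σ i).r = 0 →
      (∃ c : E ⊗[ℚ] ℂ, (M i).IsPeriod (1 : E) c) ∧ ∃ d : E ⊗[ℚ] ℂ, (M i).IsPeriod (-1 : E) d) ∧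
    (∀ i a, ∃ q : E ⊗[ℚ] ℂ, (M i).IsHodgePeriod a q) ∧
    ∀ a₀ : ℤ, ρ.IsStep M ε a₀ → (∃ x : E ⊗[ℚ] ℂ, ρ.IsPeriod M (ε : E) x) ∧
    ∃ (A B : ι → ℤ) (S : ι → ℤ → ℤ),
      (∀ i j, (σ i).sgn j = 1 → A i = ∑ s ∈ ρ.signPart ε, ρ.weight s ⟨i, j⟩) ∧
      (∀ i j, (σ i).sgn j = -1 → B i = ∑ s ∈ ρ.signPart ε, ρ.weight s ⟨i, j⟩) ∧
      (∀ i j, S i (w i - (M i).p j) =
        ∑ s ∈ ρ.lowPart M a₀, ρ.weight s ⟨i, Sum.inl (Sum.inr j)⟩) ∧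
      (∀ i, (σ i).m ≠ 0 → (σ i).r ≠ 0 → A i = B i) ∧
      ∀ (x : E ⊗[ℚ] ℂ) (c d : ι → E ⊗[ℚ] ℂ) (q : ι → ℤ → E ⊗[ℚ] ℂ), ρ.IsPeriod M (ε : E) x →
        (∀ i, (σ i).m = 0 ∨ (σ i).r = 0 →
          (M i).IsPeriod (1 : E) (c i) ∧ (M i).IsPeriod (-1 : E) (d i)) →
        (∀ i, ∀ a ∈ (M i).lowIndices, (M i).IsHodgePeriod a (q i a)) →
        ∃ (x' : (E ⊗[ℚ] ℂ)ˣ) (c' d' D' : ι → (E ⊗[ℚ] ℂ)ˣ) (q' : ι → ℤ → (E ⊗[ℚ] ℂ)ˣ) (e : Eˣ),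
          (x' : E ⊗[ℚ] ℂ) = x ∧
          (∀ i, (σ i).m = 0 ∨ (σ i).r = 0 →
            (c' i : E ⊗[ℚ] ℂ) = c i ∧ (d' i : E ⊗[ℚ] ℂ) = d i) ∧
          (∀ i, (D' i : E ⊗[ℚ] ℂ) = (M i).comp.det) ∧
          (∀ i, ∀ a ∈ (M i).lowIndices, (q' i a : E ⊗[ℚ] ℂ) = q i a) ∧
          x' = Units.map (algebraMap E (E ⊗[ℚ] ℂ)).toMonoidHom e * ∏ i,
            if (σ i).m = 0 ∨ (σ i).r = 0 then
              c' i ^ A i * d' i ^ B i * ∏ a ∈ (M i).lowIndices, q' i a ^ (S i a - A i - B i)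
            else D' i ^ A i * ∏ a ∈ (M i).lowIndices, q' i a ^ (S i a - A i) := by
  refine ⟨fun h => ρ.isStep_of_noMiddle M h hε, ?_, fun i a => ⟨_, (M i).isHodgePeriod_block a⟩,
    fun a₀ hst => ⟨ρ.exists_period M a₀ ε hst, closed_formula ρ M ε hε a₀ hst⟩⟩
  intro i hi
  have h1 : ∃ c : E ⊗[ℚ] ℂ, (M i).IsPeriod (((1 : ℤ) : E)) c := by
    apply (M i).exists_period (Or.inl rfl)
    rcases hi with hi | hi
    · left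
      rintro (j | j)
      · exact absurd j.2 (by omega)
      · simp [Shape.sgn]
    · right
      rintro (j | j)
      · simp [Shape.sgn]
      · exact absurd j.2 (by omega)
  have h2 : ∃ d : E ⊗[ℚ] ℂ, (M i).IsPeriod (((-1 : ℤ) : E)) d := by
    apply (M i).exists_period (Or.inr rfl)
    rcases hi with hi | hi
    · right
      rintro (j | j)
      · exact absurd j.2 (by omega)
      · simp [Shape.sgn]
    · left
      rintro (j | j)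
      · simp [Shape.sgn]
      · exact absurd j.2 (by omega)
  rw [Int.cast_one] at h1
  rw [Int.cast_neg, Int.cast_one] at h2
  exact ⟨h1, h2⟩
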