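import Pool.Agent.Lib.MP_100fe7_nt.SClosed

/-!
Closed formula for the Deligne periods `c^+(ρ(M))`, `c^-(ρ(M))`, where `M` is a polarised motive of
odd weight and rank `2n`, and `ρ` is any representation of `GSp_{2n}` of odd degree, in terms of
`c^+(M)`, `c^-(M)`, the multiplier `ν` of the polarisation and the determinants of
`F_∞ : M^{w-a, a} → M^{a, w-a}`, `2a < w`.
-/

open Pool.Agent.MP100fe7 TensorProduct Matrix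

theorem Pool.Agent.Results.MP_100fe7_nt.SymplecticPeriodFormula.result
    (E : Type) [Field E] [NumberField E] (n : ℕ) (w : ℤ) (hw : Odd w)
    (M : Datum (E ⊗[ℚ] ℂ) n w) (ν : (E ⊗[ℚ] ℂ)ˣ)
    (hM : M.compᵀ * symJ (E ⊗[ℚ] ℂ) n * M.comp = (ν : E ⊗[ℚ] ℂ) • symJ (E ⊗[ℚ] ℂ) n)
    (k : ℕ) (hk : Odd k) (κ : Type) [Fintype κ] [DecidableEq κ] (ρ : SympRep E n κ k) :
    ((∃ x : E ⊗[ℚ] ℂ, IsSympPeriod ρ M (1 : E) x) ∧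
      (∃ y : E ⊗[ℚ] ℂ, IsSympPeriod ρ M (-1 : E) y)) ∧
    (∀ a, ∃ q : E ⊗[ℚ] ℂ, IsHodgePeriod M a q) ∧
    ∃ (K b : ℤ) (D : ℤ → ℤ),
      (∀ i, 2 * K = ∑ s, (-1) ^ (∑ j, ρ.wt s (Sum.inr j)) *
        ((ρ.wt s (Sum.inl i) : ℤ) - ρ.wt s (Sum.inr i))) ∧
      2 * (n * K) + 4 * b = k * Fintype.card κ ∧
      (∀ i, 2 * D (w - M.p i) + K = ∑ s with 2 * ρ.hodgeIdx M s < k * w,
        ((ρ.wt s (Sum.inr i) : ℤ) - ρ.wt s (Sum.inl i))) ∧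
      ∀ (ε : ℤ), (ε = 1 ∨ ε = -1) → ∀ (x c : E ⊗[ℚ] ℂ) (q : ℤ → E ⊗[ℚ] ℂ),
        IsSympPeriod ρ M (ε : E) x → IsPeriod (std E n) M (ε : E) c →
        (∀ a ∈ lowIndices M, IsHodgePeriod M a (q a)) →
        ∃ (x' c' : (E ⊗[ℚ] ℂ)ˣ) (q' : ℤ → (E ⊗[ℚ] ℂ)ˣ) (e : Eˣ),
          (x' : E ⊗[ℚ] ℂ) = x ∧ (c' : E ⊗[ℚ] ℂ) = c ∧
          (∀ a ∈ lowIndices M, (q' a : E ⊗[ℚ] ℂ) = q a) ∧
          x' = Units.map (algebraMap E (E ⊗[ℚ] ℂ)).toMonoidHom e * c' ^ K * ν ^ b *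
            ∏ a ∈ lowIndices M, q' a ^ D a := by
  obtain ⟨K, b, D, h1, h2, h3, h4⟩ :=
    GSp.symp_closed (GSp.exists_homs_tensor E) ρ M ν hM hk hw
  refine ⟨GSp.exists_symp_period ρ M hk hw, fun a => exists_hodgePeriod M a, K, b, D, ?_, h2, ?_,
    h4⟩
  · intro i
    rw [h1 i]
    unfold GSp.moment
    apply Finset.sum_congr rfl
    intro s _
    unfold SympRep.sgn
    rw [Finset.prod_pow_eq_pow_sum]
  · intro i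
    rw [h3 i, GSp.lowWt_eq hk hw ρ M i]
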