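import Pool.Agent.Lib.MP_100fe7_nt.SFinal

/-!
The ratio `c^+ / c^-` of the two Deligne periods of `ρ(M)`, where `M` is a polarised motive of odd
weight and rank `2n`, and `ρ` an irreducible representation of `GSp_{2n}` of odd degree: it is, up
to `E^×`, the `K`-th power of the ratio for `M`, with an explicit `K`.
-/

open Pool.Agent.MP100fe7 TensorProduct

theorem Pool.Agent.Results.MP_100fe7_nt.SymplecticPeriodRatio.result
    (E : Type) [Field E] [NumberField E] (n : ℕ) (w : ℤ) (hw : Odd w)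
    (M : Datum (E ⊗[ℚ] ℂ) n w) (hM : IsSymp M.comp)
    (k : ℕ) (hk : Odd k) (κ : Type) [Fintype κ] [DecidableEq κ] (ρ : SympRep E n κ k)
    (lam : Fin n → ℕ) (hlam : Antitone lam) (hρ : IsSympIrr ρ lam) (j : ℕ)
    (hj : ∑ i, lam i + 2 * j = k) :
    ((∃ x : E ⊗[ℚ] ℂ, IsSympPeriod ρ M (1 : E) x) ∧
      (∃ y : E ⊗[ℚ] ℂ, IsSympPeriod ρ M (-1 : E) y)) ∧
    ∃ K : ℤ,
      ((oddC lam = evenC lam + 2 ∨ evenC lam = oddC lam + 1) →
        K * (n * halfProdC (n := n) 0) =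
          (-1) ^ (n + 1 + j + ∑ i, lam i * (n - 1 - i)) * halfProdC lam) ∧
      (¬ (oddC lam = evenC lam + 2 ∨ evenC lam = oddC lam + 1) → K = 0) ∧
      ∀ x y c d : E ⊗[ℚ] ℂ, IsSympPeriod ρ M (1 : E) x → IsSympPeriod ρ M (-1 : E) y →
        IsPeriod (std E n) M (1 : E) c → IsPeriod (std E n) M (-1 : E) d →
        ∃ (x' y' c' d' : (E ⊗[ℚ] ℂ)ˣ) (e : Eˣ), (x' : E ⊗[ℚ] ℂ) = x ∧ (y' : E ⊗[ℚ] ℂ) = y ∧
          (c' : E ⊗[ℚ] ℂ) = c ∧ (d' : E ⊗[ℚ] ℂ) = d ∧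
          x' / y' = Units.map (algebraMap E (E ⊗[ℚ] ℂ)).toMonoidHom e * (c' / d') ^ K :=
  Pool.Agent.MP100fe7.GSp.symp_period_ratio (GSp.exists_homs_tensor E) hw M hM hk ρ lam hlam hρ
    j hj
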